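import Pool.Agent.K3h1.TF.Stm

/-!
# Congruences modulo `p ^ 2`
-/

set_option autoImplicit false

namespace Pool.Agent.K3h91.TF

open Pool.Agent.K3h1.TF

/-- `p`-th powers of units are roots of unity of order `p - 1` modulo `p ^ 2` -/
lemma pow_unit {p : ℕ} [hp : Fact p.Prime] (a : ZMod (p ^ 2)) (h : IsUnit (a ^ p)) :
    (a ^ p) ^ (p - 1) = 1 := by
  have ha : IsUnit a := (isUnit_pow_iff hp.out.ne_zero).1 h
  obtain ⟨u, rfl⟩ := ha
  have h1 := ZMod.pow_totient u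
  rw [Nat.totient_prime_pow_succ hp.out 1, pow_one] at h1
  rw [← pow_mul]
  have h2 := congrArg Units.val h1
  rw [Units.val_pow_eq_pow_val, Units.val_one] at h2
  exact h2

/-- integers prime to `p` are units modulo `p ^ 2` -/
lemma isUnit_int {p : ℕ} [hp : Fact p.Prime] {c : ℤ} (hc : ¬ (p : ℤ) ∣ c) :
    IsUnit ((c : ℤ) : ZMod (p ^ 2)) := by
  rw [ZMod.coe_int_isUnit_iff_isCoprime]
  have h1 : IsCoprime (p : ℤ) c := (Nat.prime_iff_prime_int.1 hp.out).coprime_iff_not_dvd.2 hc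
  push_cast
  exact h1.pow_left

lemma toZ_zero {p : ℕ} [hp : Fact p.Prime] (X : ℤ_[p]) (h : ‖X‖ < 1) :
    (PadicInt.toZModPow 2 X : ZMod (p ^ 2)) ^ p = 0 := by
  rw [PadicInt.norm_lt_one_iff_dvd] at h
  obtain ⟨w, rfl⟩ := h
  rw [map_mul, mul_pow, map_natCast]
  have h1 : ((p : ZMod (p ^ 2))) ^ p = 0 := by
    have h2 : ((p : ZMod (p ^ 2))) ^ 2 = 0 := by
      have := ZMod.natCast_self (p ^ 2)
      push_cast at this
      exact this
    have h3 : p = 2 + (p - 2) := by have := hp.out.two_le; omega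
    rw [show ((p : ZMod (p ^ 2))) ^ p = ((p : ZMod (p ^ 2))) ^ (2 + (p - 2)) by rw [← h3], pow_add,
      h2, zero_mul]
  rw [h1, zero_mul]

lemma toZ_unit {p : ℕ} [hp : Fact p.Prime] (X : ℤ_[p]) (h : ‖X‖ = 1) :
    IsUnit (PadicInt.toZModPow 2 X : ZMod (p ^ 2)) :=
  (PadicInt.isUnit_iff.2 h).map _

/-- one of the three cases -/
lemma one_case {p : ℕ} [hp : Fact p.Prime] {c a : ℤ} {X Z : ZMod (p ^ 2)} (hc : ¬ (p : ℤ) ∣ c)
    (hZ : IsUnit Z) (h : (a : ZMod (p ^ 2)) * X ^ p = (c : ZMod (p ^ 2)) * Z ^ p) :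
    (p : ℤ) ^ 2 ∣ c ^ (p - 1) - a ^ (p - 1) := by
  have hu : IsUnit ((a : ZMod (p ^ 2)) * X ^ p) := by
    rw [h]
    exact (isUnit_int hc).mul (hZ.pow p)
  have h1 := congrArg (fun t => t ^ (p - 1)) h
  simp only [mul_pow] at h1
  rw [pow_unit X (isUnit_of_mul_isUnit_right hu), pow_unit Z (hZ.pow p), mul_one, mul_one] at h1
  have h2 : (((c ^ (p - 1) - a ^ (p - 1) : ℤ)) : ZMod (p ^ 2)) = 0 := by
    push_cast
    rw [h1, sub_self]
  rw [ZMod.intCast_zmod_eq_zero_iff_dvd] at h2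
  push_cast at h2
  exact h2

theorem t_CONG : S_CONG := by
  intro p hp _ c x y z hx hy hz hc h
  obtain ⟨X, rfl⟩ : ∃ X : ℤ_[p], (X : ℚ_[p]) = x := ⟨⟨x, hx⟩, rfl⟩
  obtain ⟨Y, rfl⟩ : ∃ Y : ℤ_[p], (Y : ℚ_[p]) = y := ⟨⟨y, hy⟩, rfl⟩
  obtain ⟨Z, rfl⟩ : ∃ Z : ℤ_[p], (Z : ℚ_[p]) = z := ⟨⟨z, hz.le⟩, rfl⟩
  have hZ : ‖Z‖ = 1 := hz
  have h1 : X ^ p + Y ^ p = c * Z ^ p := by
    apply PadicInt.ext
    push_cast
    exact h
  have h2 := congrArg (PadicInt.toZModPow 2 : ℤ_[p] →+* ZMod (p ^ 2)) h1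
  rw [map_add, map_mul, map_pow, map_pow, map_pow, map_intCast] at h2
  have hZu := toZ_unit Z hZ
  refine ⟨fun hX => ?_, fun hY => ?_, fun hXY => ?_⟩
  · have h3 : ((1 : ℤ) : ZMod (p ^ 2)) * (PadicInt.toZModPow 2 Y) ^ p =
        (c : ZMod (p ^ 2)) * (PadicInt.toZModPow 2 Z) ^ p := by
      rw [← h2, toZ_zero X hX]
      push_cast
      ring
    have := one_case hc hZu h3
    rwa [one_pow] at this
  · have h3 : ((1 : ℤ) : ZMod (p ^ 2)) * (PadicInt.toZModPow 2 X) ^ p =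
        (c : ZMod (p ^ 2)) * (PadicInt.toZModPow 2 Z) ^ p := by
      rw [← h2, toZ_zero Y hY]
      push_cast
      ring
    have := one_case hc hZu h3
    rwa [one_pow] at this
  · have h4 : ‖X - Y‖ < 1 := by
      rw [PadicInt.norm_def]
      push_cast
      exact hXY
    have h5 : (p : ℤ_[p]) ∣ X - Y := (PadicInt.norm_lt_one_iff_dvd _).1 h4
    have h6 := dvd_sub_pow_of_dvd_sub h5 1
    rw [pow_one] at h6
    obtain ⟨w, hw⟩ := h6
    have h7 := congrArg (PadicInt.toZModPow 2 : ℤ_[p] →+* ZMod (p ^ 2)) hw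
    rw [map_sub, map_mul, map_pow, map_pow, map_pow, map_natCast] at h7
    have h8 : ((p : ZMod (p ^ 2))) ^ (1 + 1) = 0 := by
      have := ZMod.natCast_self (p ^ 2)
      push_cast at this
      exact this
    rw [h8, zero_mul, sub_eq_zero] at h7
    have h3 : ((2 : ℤ) : ZMod (p ^ 2)) * (PadicInt.toZModPow 2 X) ^ p =
        (c : ZMod (p ^ 2)) * (PadicInt.toZModPow 2 Z) ^ p := by
      rw [← h2, ← h7]
      push_cast
      ring
    exact one_case hc hZu h3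

/-- PRQ: a prime factor of `c` (with the hypothesis that `p` does not divide `c`) -/
def S_PRQ' : Prop := ∀ p : ℕ, p.Prime → ∀ c : ℤ, c ≠ 0 → ¬ (p : ℤ) ∣ c →
  ¬ (p : ℤ) ^ 2 ∣ c ^ (p - 1) - 1 → Even (p - 1) →
  ∃ q : ℕ, q.Prime ∧ (q : ℤ) ∣ c ∧ ¬ p ∣ padicValInt q c ∧ ¬ (p : ℤ) ^ 2 ∣ (q : ℤ) ^ (p - 1) - 1

theorem t_PRQ' : S_PRQ' := by
  intro p hp c hc hpc hn he
  by_contra hcon
  push Not at hcon
  apply hn
  have Fp : Fact p.Prime := ⟨hp⟩
  have h0 : c.natAbs ≠ 0 := Int.natAbs_ne_zero.2 hc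
  have key : ((c.natAbs : ZMod (p ^ 2))) ^ (p - 1) = 1 := by
    rw [← Nat.factorization_prod_pow_eq_self h0, Finsupp.prod, Nat.cast_prod, ← Finset.prod_pow]
    refine Finset.prod_eq_one fun q hq => ?_
    have hq1 : q ∈ c.natAbs.primeFactors := by
      rwa [Nat.support_factorization] at hq
    have hqp := Nat.prime_of_mem_primeFactors hq1
    have hqc : (q : ℤ) ∣ c := Int.natCast_dvd.2 (Nat.dvd_of_mem_primeFactors hq1)
    have hv : c.natAbs.factorization q = padicValInt q c := by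
      rw [Nat.factorization_def _ hqp]
      rfl
    rw [hv, Nat.cast_pow]
    by_cases hd : p ∣ padicValInt q c
    · obtain ⟨k, hk⟩ := hd
      have hqq : ¬ (p : ℤ) ∣ (q : ℤ) := fun h => hpc (h.trans hqc)
      have hu : IsUnit ((q : ZMod (p ^ 2)) ^ p) := by
        have := isUnit_int hqq
        push_cast at this
        exact this.pow p
      have h1 := pow_unit (q : ZMod (p ^ 2)) hu
      rw [hk, ← pow_mul, mul_assoc, mul_comm k, ← mul_assoc, pow_mul, pow_mul, h1, one_pow]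
    · have h1 := hcon q hqp hqc hd
      have h2 : (q : ZMod (p ^ 2)) ^ (p - 1) = 1 := by
        have h3 : (((q : ℤ) ^ (p - 1) - 1 : ℤ) : ZMod (p ^ 2)) = 0 := by
          rw [ZMod.intCast_zmod_eq_zero_iff_dvd]
          push_cast
          exact h1
        push_cast at h3
        exact sub_eq_zero.1 h3
      rw [← pow_mul, mul_comm, pow_mul, h2, one_pow]
  have h4 : ((c : ℤ) : ZMod (p ^ 2)) ^ (p - 1) = 1 := by
    have h5 : (c : ℤ) ^ (p - 1) = ((c.natAbs : ℕ) : ℤ) ^ (p - 1) := by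
      rcases Int.natAbs_eq c with h | h
      · rw [← h]
      · rw [show (c : ℤ) ^ (p - 1) = (-((c.natAbs : ℕ) : ℤ)) ^ (p - 1) by rw [← h], he.neg_pow]
    have h6 := congrArg (fun t : ℤ => (t : ZMod (p ^ 2))) h5
    simp only [Int.cast_pow, Int.cast_natCast] at h6
    rw [h6]
    exact key
  have h7 : (((c ^ (p - 1) - 1 : ℤ)) : ZMod (p ^ 2)) = 0 := by
    push_cast
    rw [h4, sub_self]
  rw [ZMod.intCast_zmod_eq_zero_iff_dvd] at h7
  push_cast at h7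
  exact h7

end Pool.Agent.K3h91.TF
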