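import Pool.Agent.K3h1.TF.Stm2
import Pool.Agent.K3h1.FC.CRIT

/-!
# Brick CRIT3 of project TF: the criterion with the derivative at `1`

Adaptation of `Pool.Agent.K3h55.TF.t_CRIT2`.
-/

set_option autoImplicit false

namespace Pool.Agent.K3h91.TF

open NumberField IsDedekindDomain Polynomial Pool.Agent.Y546.WQ Pool.Agent.K3h1.FC
  Pool.Agent.K3h1.TF

theorem t_CRIT3 : S_CRIT3 := by
  intro p _ h5 E _ _ c f n hpn hp1 h0 hv q _ hqp hqn hW b B₀ B₁ hb0 hfq
  have hpp : p.Prime := Fact.out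
  have hp2 : p ≠ 2 := by omega
  have hev : (f.map (Int.castRingHom (ZMod p))).eval 1 ≠ 0 := by
    intro h
    apply hp1
    have e := eval_intCast_map (Int.castRingHom (ZMod p)) f 1
    rw [Int.cast_one, h] at e
    exact (ZMod.intCast_zmod_eq_zero_iff_dvd _ p).1 e.symm
  have hrel : ∀ a : ℕ, 0 < a → a + 2 ≤ p → ∃ g : E, g ≠ 0 ∧ ∃ i : ℕ,
      tha c a (aeval c.z f / (n : E)) = c.z ^ i * g ^ p ∧ ∃ r : ZMod p, r ≠ 0 ∧
      (X - 1) ^ (p - 1) ∣ thPa p a (f.map (Int.castRingHom (ZMod p))) -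
        Polynomial.C r * X ^ i := by
    intro a ha hap
    obtain ⟨g, hg, i, hi⟩ := relGA aUNITA hp2 a ha hap c f n hpn hp1 h0 hv
    exact ⟨g, hg, i, hi, Y919.WQ.mainLAMA p hp2 a ha hap E c f n hpn hp1 g hg i hi⟩
  have hqq : q.Prime := Fact.out
  obtain ⟨a, ha, hap, hhs⟩ := Pool.Agent.K3h85.ER.RG1.main p hp2
  obtain ⟨g, hg, i, hi, r, hr, hd⟩ := hrel a ha hap
  have hi1 : (i : ZMod p) * (f.map (Int.castRingHom (ZMod p))).eval 1 =
      (derivative (f.map (Int.castRingHom (ZMod p)))).eval 1 * hsa p a 1 :=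
    Pool.Agent.K3h44.ER.mainDER p hp2 a i _ r hev hd
  obtain ⟨w, hw, hwp⟩ := exists_zint c
  have hwf : ∀ w' : 𝓞 E, (w' : E) = aeval c.z f → w' = aeval w f := by
    intro w' hw'
    apply RingOfIntegers.coe_injective
    have h1 : algebraMap (𝓞 E) E w = c.z := hw
    refine hw'.trans ?_
    rw [← h1]
    exact aeval_algebraMap_apply E w f
  -- the field
  have hfield : ∀ P : Ideal (𝓞 E), P.IsPrime → (q : 𝓞 E) ∈ P → ∀ w' : 𝓞 E,
      (w' : E) = aeval c.z f → w' ∈ P → ∃ ι : ZMod q →+* 𝓞 E ⧸ P,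
        ι B₀ + ι B₁ * Ideal.Quotient.mk P w = 0 := by
    intro P hP hqP w' hw' hmem
    have := hP
    rw [hwf w' hw'] at hmem
    obtain ⟨φ, ι, hφ, h⟩ := aeval_mod w q f P hqP b B₀ B₁ hfq hmem
    refine ⟨ι, ?_⟩
    have hne : Nontrivial (𝓞 E ⧸ P) := Ideal.Quotient.nontrivial_iff.2 hP.ne_top
    have hι : ι b ≠ 0 := by
      intro h1
      exact hb0 ((map_eq_zero_iff ι ι.injective).1 h1)
    have h3 := (mul_eq_zero.1 h).resolve_left hι
    rwa [hφ] at h3
  have hwunit : ∀ P : Ideal (𝓞 E), P.IsPrime → Ideal.Quotient.mk P w ≠ 0 := by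
    intro P hP h
    have h1 : w ∈ P := Ideal.Quotient.eq_zero_iff_mem.1 h
    apply one_notMem P hP
    rw [← hwp.pow_eq_one]
    exact P.pow_mem_of_mem h1 p hpp.pos
  set m := f.natDegree + 2 with hm
  set f₁ : ZMod p := (f.map (Int.castRingHom (ZMod p))).eval 1 with hf1
  set f₂ : ZMod p := (derivative (f.map (Int.castRingHom (ZMod p)))).eval 1 with hf2
  have hQG : ∀ (α β : ℕ) (ε : ZMod q), (ε = 1 ∨ ε = -1) →
      X ^ β * f.map (Int.castRingHom (ZMod q)) =
      Polynomial.C ε * (X ^ α * (f.reflect m).map (Int.castRingHom (ZMod q))) →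
      (∀ P : Ideal (𝓞 E), P.IsPrime → (q : 𝓞 E) ∈ P → ∀ w : 𝓞 E, (w : E) = aeval c.z f →
        w ∉ P) → 2 * f₂ = ((m : ZMod p) + α - β) * f₁ := by
    intro α β ε hε h1 h2
    have h3 := (Pool.Agent.K3h85.ER.QG.main p hp2 q hqp a ha hap E c f n hqn m α β ε
      hε (by omega) h1 h2 g hg i hi).resolve_right hW
    apply mul_right_cancel₀ hhs
    linear_combination f₁ * h3 - 2 * hi1
  have hrefl : (f.reflect m).map (Int.castRingHom (ZMod q)) =
      (Polynomial.C b * (Polynomial.C B₀ + Polynomial.C B₁ * X)).reflect m := by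
    rw [← reflect_map, hfq]
  have hre : (Polynomial.C b * (Polynomial.C B₀ + Polynomial.C B₁ * X)).reflect m =
      Polynomial.C b * (Polynomial.C B₀ * X ^ m + Polynomial.C B₁ * X ^ (m - 1)) := by
    rw [reflect_C_mul, reflect_add]
    have e1 : (Polynomial.C B₀ : (ZMod q)[X]).reflect m = Polynomial.C B₀ * X ^ m := by
      have := Polynomial.reflect_C_mul_X_pow m 0 (c := B₀)
      rw [pow_zero, mul_one, revAt_le (Nat.zero_le m), Nat.sub_zero] at this
      exact this
    have e2 : (Polynomial.C B₁ * X : (ZMod q)[X]).reflect m =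
        Polynomial.C B₁ * X ^ (m - 1) := by
      have := Polynomial.reflect_C_mul_X_pow m 1 (c := B₁)
      rw [pow_one, revAt_le (by omega)] at this
      exact this
    rw [e1, e2]
  rw [hrefl, hre, hfq] at hQG
  have h2p : (2 : ZMod p) ≠ 0 := by
    have h3 : ((2 : ℕ) : ZMod p) ≠ 0 := by
      rw [Ne, ZMod.natCast_eq_zero_iff]
      intro h
      exact hp2 ((Nat.prime_dvd_prime_iff_eq hpp Nat.prime_two).1 h)
    exact_mod_cast h3
  refine ⟨?_, ?_⟩
  · rintro ⟨h, hB1⟩
    have h1 := hQG 0 (m - 2) 1 (Or.inl rfl) (by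
      rw [h, hB1]
      simp only [map_zero, zero_mul, zero_add, map_one, one_mul, pow_zero]
      have e : (X : (ZMod q)[X]) ^ (m - 1) = X ^ (m - 2) * X := by
        rw [← pow_succ]
        congr 1
      rw [e]
      ring) (by
      intro P hP hqP w' hw' hmem
      obtain ⟨ι, hι⟩ := hfield P hP hqP w' hw' hmem
      rw [h, hB1, map_zero, map_one, zero_add, one_mul] at hι
      exact hwunit P hP hι)
    have h2 : ((m - 2 : ℕ) : ZMod p) = (m : ZMod p) - 2 := by
      rw [Nat.cast_sub (by omega)]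
      norm_num
    rw [h2] at h1
    apply mul_left_cancel₀ h2p
    rw [h1]
    push_cast
    ring
  · rintro ⟨hB1, h⟩
    have h1 := hQG 0 m 1 (Or.inl rfl) (by
      rw [h, hB1]
      simp only [map_zero, zero_mul, add_zero, map_one, one_mul, pow_zero]
      ring) (by
      intro P hP hqP w' hw' hmem
      obtain ⟨ι, hι⟩ := hfield P hP hqP w' hw' hmem
      have hne : Nontrivial (𝓞 E ⧸ P) := Ideal.Quotient.nontrivial_iff.2 hP.ne_top
      rw [h, hB1, map_zero, map_one, zero_mul, add_zero] at hι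
      exact one_ne_zero hι)
    have h2 : 2 * f₂ = 0 := by
      rw [h1]
      push_cast
      ring
    exact (mul_eq_zero.1 h2).resolve_left h2p

end Pool.Agent.K3h91.TF
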